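import Pool.Agent.H22.EQ.Caps

/-!
# Inscribed caps in equilibrium on both sides of a knotted hypersurface

Let `M ⊂ Sⁿ` be a smooth closed simply connected hypersurface with two connected sides
`W₁ = {R ≤ 0}` and `W₂ = {R ≥ 0}` (for instance a smooth 3-sphere in `S⁴`), and suppose that `M` is
knotted: the sides are not both diffeomorphic to the closed ball. Then each side contains an open
round cap of radius less than `π / 2` which is in equilibrium on at most `n - 1` points of `M`: the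
center of the sphere (of dimension `n - 1`) which bounds the cap is in the convex hull of at most
`n - 1` points in which this sphere touches `M`. For a smooth 3-sphere in `S⁴` there are at most
three points.
-/

set_option autoImplicit false

namespace Pool.Agent.Results.MP_6c077c_gt.InscribedCaps

open Set Metric Filter
open scoped Manifold ContDiff Topology RealInnerProductSpace

/-- Euclidean space of dimension `n`. -/
abbrev Eu (n : ℕ) := EuclideanSpace ℝ (Fin n)

/-- The unit sphere `Sⁿ` of `ℝⁿ⁺¹`. -/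
abbrev S (n : ℕ) := sphere (0 : Eu (n + 1)) 1

/-- `W` is a smoothly embedded closed `n`-ball of `Sⁿ`. -/
def IsSmoothBall (n : ℕ) (W : Set (S n)) : Prop :=
  ∃ Φ : Eu n → S n, Topology.IsOpenEmbedding Φ ∧ IsLocalDiffeomorph (𝓡 n) (𝓡 n) ∞ Φ ∧
    Φ '' closedBall 0 1 = W

/-- `M = {R = 0}` is a simply connected smooth hypersurface of the sphere with two connected sides:
`R` is smooth, `0` is a regular value of its restriction to the sphere, `{R ≤ 0}` and `{R ≥ 0}` are
connected, and `{R = 0}` is simply connected. -/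
structure TwoSided (n : ℕ) (R : Eu (n + 1) → ℝ) : Prop where
  smooth : ContDiff ℝ ∞ R
  regular : ∀ x, ‖x‖ = 1 → R x = 0 → ∃ v, ⟪x, v⟫ = 0 ∧ fderiv ℝ R x v ≠ 0
  connected_neg : IsConnected {x : S n | R x ≤ 0}
  connected_pos : IsConnected {x : S n | 0 ≤ R x}
  simply : SimplyConnectedSpace {x : S n | R x = 0}

/-- Both sides of `M = {R = 0}` are diffeomorphic to the closed ball. -/
def Unknotted (n : ℕ) (R : Eu (n + 1) → ℝ) : Prop :=
  IsSmoothBall n {x : S n | R x ≤ 0} ∧ IsSmoothBall n {x : S n | 0 ≤ R x}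

/-- The open cap `{y ∈ Sⁿ | ⟪x, y⟫ > c}` with center `x` and radius `arccos c`, `0 < c < 1`, is
contained in the side `{R < 0}`, and it is in equilibrium on a set `Z` of at most `n - 1` points of
`M = {R = 0}`: the points of `Z` are on the boundary `{y ∈ Sⁿ | ⟪x, y⟫ = c}` of the cap, and the
center `c • x` of this round sphere is in the convex hull of `Z`. -/
def EquilibriumCap (n : ℕ) (R : Eu (n + 1) → ℝ) (x : Eu (n + 1)) (c : ℝ)
    (Z : Finset (Eu (n + 1))) : Prop :=
  ‖x‖ = 1 ∧ 0 < c ∧ c < 1 ∧ (∀ y, ‖y‖ = 1 → c < ⟪x, y⟫ → R y < 0) ∧ Z.card + 1 ≤ n ∧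
    (∀ z ∈ Z, ‖z‖ = 1 ∧ R z = 0 ∧ ⟪x, z⟫ = c) ∧ c • x ∈ convexHull ℝ (Z : Set (Eu (n + 1)))

theorem neg_twoSided {n : ℕ} {R : Eu (n + 1) → ℝ} (hR : TwoSided n R) :
    TwoSided n (fun z => -R z) := by
  have hfd : ∀ x, fderiv ℝ (fun z => -R z) x = -fderiv ℝ R x := fun x => fderiv_neg
  refine ⟨hR.smooth.neg, fun x hx hx0 => ?_, ?_, ?_, ?_⟩
  · obtain ⟨v, hv1, hv2⟩ := hR.regular x hx (by simpa using hx0)
    exact ⟨v, hv1, by rw [hfd]; simpa using hv2⟩
  · have : {x : S n | -R (x : Eu (n + 1)) ≤ 0} = {x : S n | 0 ≤ R x} := by ext x; simp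
    rw [this]; exact hR.connected_pos
  · have : {x : S n | 0 ≤ -R (x : Eu (n + 1))} = {x : S n | R x ≤ 0} := by ext x; simp
    rw [this]; exact hR.connected_neg
  · have : {x : S n | -R (x : Eu (n + 1)) = 0} = {x : S n | R x = 0} := by ext x; simp
    rw [this]; exact hR.simply

/-- neither side of a knotted hypersurface is a ball -/
theorem not_ball {n : ℕ} {R : Eu (n + 1) → ℝ} (hR : TwoSided n R) (hk : ¬Unknotted n R) :
    ¬IsSmoothBall n {x : S n | R x ≤ 0} := by
  have : Fact (Module.finrank ℝ (Eu (n + 1)) = n + 1) := ⟨finrank_euclideanSpace_fin⟩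
  exact fun h => hk ⟨h, Q100.SS.other_side hR.smooth hR.regular h⟩

theorem unknotted_neg {n : ℕ} {R : Eu (n + 1) → ℝ} (h : Unknotted n fun z => -R z) :
    Unknotted n R := by
  obtain ⟨h1, h2⟩ := h
  have e1 : {x : S n | -R (x : Eu (n + 1)) ≤ 0} = {x : S n | 0 ≤ R x} := by ext x; simp
  have e2 : {x : S n | 0 ≤ -R (x : Eu (n + 1))} = {x : S n | R x ≤ 0} := by ext x; simp
  rw [e1] at h1
  rw [e2] at h2
  exact ⟨h2, h1⟩

theorem one_side (n : ℕ) (R : Eu (n + 1) → ℝ) (hR : TwoSided n R)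
    (hball : ¬IsSmoothBall n {x : S n | R x ≤ 0}) : ∃ x c Z, EquilibriumCap n R x c Z := by
  have : Fact (Module.finrank ℝ (Eu (n + 1)) = n + 1) := ⟨finrank_euclideanSpace_fin⟩
  have hball' : ¬Q100.SS.IsBallS n {x : S n | R x ≤ 0} := hball
  obtain ⟨x, hx, c, h0, h1, h2, Z, h3, h4, h5⟩ :=
    H22.EQ.caps hR.smooth hR.regular hR.connected_neg hball' hR.simply
  exact ⟨x, c, Z, hx, h0, h1, h2, h3, h4, h5⟩

theorem result (n : ℕ) (R : Eu (n + 1) → ℝ) (hR : TwoSided n R) (hk : ¬Unknotted n R) :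
    (∃ x c Z, EquilibriumCap n R x c Z) ∧ (∃ x c Z, EquilibriumCap n (fun z => -R z) x c Z) :=
  ⟨one_side n R hR (not_ball hR hk),
    one_side n _ (neg_twoSided hR) (not_ball (neg_twoSided hR) fun h => hk (unknotted_neg h))⟩

end Pool.Agent.Results.MP_6c077c_gt.InscribedCaps
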