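import Pool.Agent.H27.Tgt.Glue
import Pool.Graph.R_pool_sql_team_seeded_620a6dc7.H865_sch.Final

/-!
# Knotted 3-spheres and pinching in regular homotopies

Let `f_t : S³ → ℝ⁴`, `0 ≤ t ≤ 1`, be a regular homotopy (a smooth path of cooriented immersions)
from the standard embedding `f_0` to an embedding `f_1`. We show that the smooth 3-sphere `f_1(S³)`
is unknotted, and that `f_1` even extends to a diffeomorphism of `ℝ⁴`, if there is no *pinching* on
the way.

Two sheets of `f_t`, at points `x ≠ y` with `f_t(x) = f_t(y)`, may intersect transversally, or be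
tangent with equal coorientations, or be tangent with opposite coorientations (an inverse
self-tangency). All this is allowed, except for the last possibility in the case that no curve in
the first sheet leaves the second sheet to its outer side to second order: this is a pinching. If
the first sheet is the graph of `g` and the second the graph of `h`, locally over the common tangent
space, and the inner sides are the points below the graph of `g` and above the graph of `h`, then
this means that the Hessian of `g - h` is positive semidefinite. In a generic regular homotopy there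
are finitely many inverse self-tangencies, each one with a nondegenerate Hessian of index 0, 1, 2 or
3; the pinchings are the ones of index 0, where the sheets touch from their inner sides, as when a
neck of an immersed ball is pinched. So every regular homotopy from the round to a knotted 3-sphere
goes through a pinching.

The path is given by germs of local diffeomorphisms along the unit sphere: a smooth map
`F : ℝ × ℝ⁴ → ℝ⁴` such that `F(t, ·)` is a local diffeomorphism at the points of the unit sphere for
`0 ≤ t ≤ 1` (the coorientation of `f_t` at `x` points to the outside, in the direction `dF(t, ·) x`);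
`F(0, ·)` is a local diffeomorphism at all points of the closed unit ball, for example the identity.

The proof. We show that the set of the `t` for which the germ `F(t, ·)` extends to an immersion of
the closed ball (a local diffeomorphism `G_t` at its points, in general not injective) contains a
neighbourhood of uniform size of each of its points. For this it is enough that `G_t` can be chosen
equal to `F(t, ·)` on a collar of uniform width. The inner collar of `F(t, ·)` is lifted to the
immersed ball by a flow; at the smallest depth at which the lifted collar is not embedded two of its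
sheets touch, and no points near the point of contact belong to the outer sides of both; for small
depths this contradicts the hypothesis, by compactness. The embedded lifted collar is then
straightened by a diffeomorphism of the ball. Finally an immersed ball which is embedded along its
boundary is embedded.
-/

set_option autoImplicit false

open Set Filter Topology Metric Function
open scoped ContDiff Manifold

namespace Pool.Agent.Results.MP_6c077c_gt.InverseTangency

/-- `ℝ⁴` -/
abbrev R4 : Type := EuclideanSpace ℝ (Fin 4)

/-- `F` is a regular homotopy of the cooriented unit sphere: `F` is smooth and `F t` is a local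
diffeomorphism at the points of the unit sphere (`0 ≤ t ≤ 1`), and `F 0` is a local diffeomorphism
at all points of the closed unit ball (for example the identity). -/
structure RegularHomotopy (F : ℝ → R4 → R4) : Prop where
  smooth : ContDiff ℝ ∞ fun p : ℝ × R4 => F p.1 p.2
  immersed : ∀ t ∈ Icc (0 : ℝ) 1, ∀ x, ‖x‖ = 1 → Bijective (fderiv ℝ (F t) x)
  start : ∀ x, ‖x‖ ≤ 1 → Bijective (fderiv ℝ (F 0) x)

/-- `α` and `β` are smooth curves (near `0`) through `x` and `y` with `f (α s) = f (β s)` -/
structure CommonCurve (f : R4 → R4) (x y : R4) (α β : ℝ → R4) : Prop where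
  smooth_left : ContDiffAt ℝ ∞ α 0
  smooth_right : ContDiffAt ℝ ∞ β 0
  left : α 0 = x
  right : β 0 = y
  common : ∀ᶠ s in 𝓝 0, f (α s) = f (β s)

/-- The sheets of `f` at the points `x`, `y` of the unit sphere are tangent with opposite
coorientations: no common curve points to the outer side of both (to first order). -/
def InverseTangent (f : R4 → R4) (x y : R4) : Prop :=
  ∀ α β, CommonCurve f x y α β → 0 < deriv (fun s => ‖α s‖ ^ 2) 0 →
    deriv (fun s => ‖β s‖ ^ 2) 0 ≤ 0

/-- No curve in the sheet of `f` at `x` (the image of the unit sphere near `x`) leaves the sheet at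
`y` to its outer side, to second order. -/
def StaysInside (f : R4 → R4) (x y : R4) : Prop :=
  ∀ α β, CommonCurve f x y α β → (∀ᶠ s in 𝓝 0, ‖α s‖ = 1) →
    deriv (deriv fun s => ‖β s‖ ^ 2) 0 ≤ 0

/-- The sheets of `f` at the points `x ≠ y` of the unit sphere pass through the same point, where
they are tangent with opposite coorientations, and touch from their inner sides, to second order. -/
def Pinching (f : R4 → R4) (x y : R4) : Prop :=
  ‖x‖ = 1 ∧ ‖y‖ = 1 ∧ x ≠ y ∧ f x = f y ∧ InverseTangent f x y ∧ StaysInside f x y

/-- `G` is a diffeomorphism of `ℝ⁴`, equal to a linear isometry outside a compact set (so it extends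
to a diffeomorphism of `S⁴`) -/
def StandardAtInfinity (G : R4 → R4) : Prop :=
  ContDiff ℝ ∞ G ∧ (∃ K : R4 → R4, ContDiff ℝ ∞ K ∧ LeftInverse K G ∧ RightInverse K G) ∧
    ∃ (O : R4 ≃ₗᵢ[ℝ] R4) (R : ℝ), ∀ x, R ≤ ‖x‖ → G x = O x

theorem result (F : ℝ → R4 → R4) (hF : RegularHomotopy F) (hi : InjOn (F 1) (sphere 0 1))
    (hT : ∀ t ∈ Icc (0 : ℝ) 1, ∀ x y, ¬Pinching (F t) x y) :
    ∃ G : R4 → R4, StandardAtInfinity G ∧ ∀ x, ‖x‖ = 1 → G x = F 1 x := by
  have hid : ContMDiff (𝓡 4) 𝓘(ℝ, R4) ∞ (fun x : R4 => x) := contMDiff_id
  have hsm : ContMDiff 𝓘(ℝ, ℝ × R4) (𝓡 4) ∞ (fun p : ℝ × R4 => F p.1 p.2) :=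
    contMDiff_iff_contDiff.2 hF.smooth
  have hFt : ∀ t, ContDiff ℝ ∞ (F t) := fun t => hF.smooth.comp (contDiff_const.prodMk contDiff_id)
  have hRH : H27.Tgt.RHW (fun x : R4 => x) F := by
    refine ⟨hF.smooth.continuous, hF.smooth, fun t ht x hx => (hF.immersed t ht x hx).injective,
      fun t ht x y _ hy hxy => H27.Tgt.trans_mfd (I := 𝓡 4) hid rfl hsm
        (hF.immersed t ht y hy).injective hxy, ?_⟩
    intro t ht x y hx hy hxy he
    by_contra hcon
    unfold H27.Tgt.NoPinch at hcon
    rw [not_or] at hcon
    refine hT t ht x y ⟨hx, hy, hxy, he, fun α β h h1 => ?_, fun α β h h1 => ?_⟩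
    · by_contra h2
      have hα' : HasDerivAt α (deriv α 0) 0 := (h.smooth_left.differentiableAt (by simp)).hasDerivAt
      have hβ' : HasDerivAt β (deriv β 0) 0 := (h.smooth_right.differentiableAt (by simp)).hasDerivAt
      rw [hα'.norm_sq.deriv, h.left] at h1
      rw [hβ'.norm_sq.deriv, h.right, not_le] at h2
      refine hcon.1 ⟨deriv α 0, deriv β 0, ?_, by linarith, by linarith⟩
      have h5 : HasDerivAt (fun s => F t (α s)) (fderiv ℝ (fun x => F t x) x (deriv α 0)) 0 := by
        have h6 : HasFDerivAt (fun x => F t x) (fderiv ℝ (fun x => F t x) x) (α 0) := by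
          rw [h.left]
          exact ((hFt t).differentiable (by simp) x).hasFDerivAt
        exact h6.comp_hasDerivAt (0:ℝ) hα'
      have h7 : HasDerivAt (fun s => F t (β s)) (fderiv ℝ (fun x => F t x) y (deriv β 0)) 0 := by
        have h6 : HasFDerivAt (fun x => F t x) (fderiv ℝ (fun x => F t x) y) (β 0) := by
          rw [h.right]
          exact ((hFt t).differentiable (by simp) y).hasFDerivAt
        exact h6.comp_hasDerivAt (0:ℝ) hβ'
      exact (h5.congr_of_eventuallyEq (h.common.mono fun s hs => hs.symm)).unique h7
    · by_contra h2
      exact hcon.2 ⟨α, β, h.smooth_left, h.smooth_right, h.left, h.right, h1.and h.common,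
        not_le.1 h2⟩
  obtain ⟨H, hH, hHi, a, ha, -, haH⟩ := H27.Tgt.all_timesW (I := 𝓡 4) hid rfl hsm hRH
    ⟨F 0, contMDiff_iff_contDiff.2 (hFt 0), fun x hx => (hF.start x hx).injective, 1 / 2,
      by norm_num, by norm_num, fun _ _ => rfl⟩
  have hH : ContDiff ℝ ∞ H := contMDiff_iff_contDiff.1 hH
  have hLD : ∀ x, ‖x‖ ≤ 1 → Y522.LD 4 H x := fun x hx =>
    Y522.LD_of_bij (Filter.Eventually.of_forall fun y => hH.contDiffAt) ⟨hHi x hx,
      (LinearMap.injective_iff_surjective (f := (fderiv ℝ H x : R4 →ₗ[ℝ] R4))).1 (hHi x hx)⟩
  have hS : ∀ x, ‖x‖ = 1 → H x = F 1 x := fun x hx => haH x (by rw [hx]; simpa using ha)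
  obtain ⟨G, O', R, hb, hL, -, -, h3, h4⟩ := H865_sch.sch_core 3 4 (by norm_num) H
    hH.continuous.continuousOn (fun x hx y hy h => by
      have hx' : ‖x‖ = 1 := by simpa using hx
      have hy' : ‖y‖ = 1 := by simpa using hy
      rw [hS x hx', hS y hy'] at h
      exact hi hx hy h)
    (fun x hx => hLD x hx.le) id continuousOn_id (injOn_id _)
    (fun x _ => ⟨contDiffAt_id, by rw [fderiv_id]; exact injective_id⟩) univ
    (fun δ hδ => ⟨δ / 2, mem_univ _, by linarith, by linarith⟩)
    (fun x hx hn => absurd (hLD x hx.le) hn) ∅ isOpen_empty
    (fun x hx hn => absurd (hLD x hx.le) hn) 1 one_pos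
  obtain ⟨hG, hK⟩ := Y522.smooth_inverse hb hL
  exact ⟨G, ⟨hG, hK, O', R, h4⟩, fun x hx => (h3 x hx).trans (hS x hx)⟩

end Pool.Agent.Results.MP_6c077c_gt.InverseTangency
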