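import Pool.Agent.H22.EQ.MaxG

/-!
# Maxima of families of functions on both sides of a knotted hypersurface

Let `M ⊂ Sⁿ` be a smooth closed simply connected hypersurface with two connected sides
`W₁ = {R ≤ 0}` and `W₂ = {R ≥ 0}` (for instance a smooth 3-sphere in `S⁴`), and suppose that `M` is
knotted: the sides are not both diffeomorphic to the closed ball. Let `F = max_t φ_t` be the maximum
of a compact family of smooth functions on the sphere (for instance the maximum of finitely many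
functions, or minus the squared distance from a compact set). Then `F` has on each side a critical
point `x` with a nonpositive plane: there are at most `n + 2` parameters `t_i` with
`φ_{t_i}(x) = F(x)`, positive weights `w_i` of sum `1` and `s ≥ 0` such that
`∑ w_i ∇φ_{t_i}(x) + s ∇R(x) = 0` on the tangent space of the sphere, `s = 0` if `x` is not on `M`,
and a plane of tangent vectors on which the differentials of all the `φ_{t_i}` vanish and the second
variation of `∑ w_i φ_{t_i} + s R` is nonpositive.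
-/

set_option autoImplicit false

namespace Pool.Agent.Results.MP_6c077c_gt.MaximaOfFamilies

open Set Metric Filter
open scoped Manifold ContDiff Topology RealInnerProductSpace

/-- Euclidean space of dimension `n`. -/
abbrev Eu (n : ℕ) := EuclideanSpace ℝ (Fin n)

/-- The unit sphere `Sⁿ` of `ℝⁿ⁺¹`. -/
abbrev S (n : ℕ) := sphere (0 : Eu (n + 1)) 1

/-- `W` is a smoothly embedded closed `n`-ball of `Sⁿ`. -/
def IsSmoothBall (n : ℕ) (W : Set (S n)) : Prop :=
  ∃ Φ : Eu n → S n, Topology.IsOpenEmbedding Φ ∧ IsLocalDiffeomorph (𝓡 n) (𝓡 n) ∞ Φ ∧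
    Φ '' closedBall 0 1 = W

/-- `M = {R = 0}` is a simply connected smooth hypersurface of the sphere with two connected sides:
`R` is smooth, `0` is a regular value of its restriction to the sphere, `{R ≤ 0}` and `{R ≥ 0}` are
connected, and `{R = 0}` is simply connected. -/
structure TwoSided (n : ℕ) (R : Eu (n + 1) → ℝ) : Prop where
  smooth : ContDiff ℝ ∞ R
  regular : ∀ x, ‖x‖ = 1 → R x = 0 → ∃ v, ⟪x, v⟫ = 0 ∧ fderiv ℝ R x v ≠ 0
  connected_neg : IsConnected {x : S n | R x ≤ 0}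
  connected_pos : IsConnected {x : S n | 0 ≤ R x}
  simply : SimplyConnectedSpace {x : S n | R x = 0}

/-- Both sides of `M = {R = 0}` are diffeomorphic to the closed ball. -/
def Unknotted (n : ℕ) (R : Eu (n + 1) → ℝ) : Prop :=
  IsSmoothBall n {x : S n | R x ≤ 0} ∧ IsSmoothBall n {x : S n | 0 ≤ R x}

/-- A family of smooth functions whose values and derivatives of order one and two depend
continuously on the parameter and the point. -/
structure SmoothFamily (n : ℕ) {T : Type*} [TopologicalSpace T] (φ : T → Eu (n + 1) → ℝ) :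
    Prop where
  smooth : ∀ t, ContDiff ℝ ∞ (φ t)
  cont : Continuous fun p : T × Eu (n + 1) => φ p.1 p.2
  cont_fderiv : Continuous fun p : T × Eu (n + 1) => fderiv ℝ (φ p.1) p.2
  cont_fderiv_fderiv : Continuous fun p : T × Eu (n + 1) => fderiv ℝ (fderiv ℝ (φ p.1)) p.2

/-- For unit vectors `u` orthogonal to `x`: the great circle through `x` in the direction `u`. -/
noncomputable def greatCircle {n : ℕ} (x u : Eu (n + 1)) (τ : ℝ) : Eu (n + 1) :=
  Real.cos τ • x + Real.sin τ • u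

/-- `x` is a critical point of the restriction of `max_t φ_t` to `{R ≤ 0}`, with multiplier `s ≥ 0`
(equal to `0` if `R x < 0`), and with a nonpositive plane: there are at most `n + 2` parameters
`t i`, which attain the maximum at `x`, and positive weights `w i` of sum one such that the
differential of `G = ∑ w_i φ_{t_i} + s R` vanishes on the tangent vectors of the sphere at `x`; and
there are orthonormal tangent vectors `a`, `b` of the sphere, tangent to `{R = 0}` if `s > 0`, which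
are in the kernels of the differentials of all the `φ_{t_i}`, such that the second derivative of `G`
at `x` is at most `0` along every great circle through `x` whose direction is in the plane of `a`
and `b`. -/
def MaxCritPlane (n : ℕ) {T : Type*} (R : Eu (n + 1) → ℝ) (φ : T → Eu (n + 1) → ℝ)
    (x : Eu (n + 1)) (s : ℝ) : Prop :=
  ‖x‖ = 1 ∧ R x ≤ 0 ∧ 0 ≤ s ∧ s * R x = 0 ∧
    ∃ (m : ℕ) (t : Fin m → T) (w : Fin m → ℝ), m ≤ n + 2 ∧ (∀ i, 0 < w i) ∧ ∑ i, w i = 1 ∧
      (∀ i t', φ t' x ≤ φ (t i) x) ∧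
      (∀ v, ⟪x, v⟫ = 0 → ∑ i, w i * fderiv ℝ (φ (t i)) x v + s * fderiv ℝ R x v = 0) ∧
      ∃ a b : Eu (n + 1), ‖a‖ = 1 ∧ ‖b‖ = 1 ∧ ⟪a, b⟫ = 0 ∧ ⟪x, a⟫ = 0 ∧ ⟪x, b⟫ = 0 ∧
        s * fderiv ℝ R x a = 0 ∧ s * fderiv ℝ R x b = 0 ∧
        (∀ i, fderiv ℝ (φ (t i)) x a = 0 ∧ fderiv ℝ (φ (t i)) x b = 0) ∧
        ∀ θ : ℝ, deriv (deriv fun τ =>
          ∑ i, w i * φ (t i) (greatCircle x (Real.cos θ • a + Real.sin θ • b) τ) +
            s * R (greatCircle x (Real.cos θ • a + Real.sin θ • b) τ)) 0 ≤ 0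

theorem neg_twoSided {n : ℕ} {R : Eu (n + 1) → ℝ} (hR : TwoSided n R) :
    TwoSided n (fun z => -R z) := by
  have hfd : ∀ x, fderiv ℝ (fun z => -R z) x = -fderiv ℝ R x := fun x => fderiv_neg
  refine ⟨hR.smooth.neg, fun x hx hx0 => ?_, ?_, ?_, ?_⟩
  · obtain ⟨v, hv1, hv2⟩ := hR.regular x hx (by simpa using hx0)
    exact ⟨v, hv1, by rw [hfd]; simpa using hv2⟩
  · have : {x : S n | -R (x : Eu (n + 1)) ≤ 0} = {x : S n | 0 ≤ R x} := by ext x; simp
    rw [this]; exact hR.connected_pos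
  · have : {x : S n | 0 ≤ -R (x : Eu (n + 1))} = {x : S n | R x ≤ 0} := by ext x; simp
    rw [this]; exact hR.connected_neg
  · have : {x : S n | -R (x : Eu (n + 1)) = 0} = {x : S n | R x = 0} := by ext x; simp
    rw [this]; exact hR.simply

/-- neither side of a knotted hypersurface is a ball -/
theorem not_ball {n : ℕ} {R : Eu (n + 1) → ℝ} (hR : TwoSided n R) (hk : ¬Unknotted n R) :
    ¬IsSmoothBall n {x : S n | R x ≤ 0} := by
  have : Fact (Module.finrank ℝ (Eu (n + 1)) = n + 1) := ⟨finrank_euclideanSpace_fin⟩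
  exact fun h => hk ⟨h, Q100.SS.other_side hR.smooth hR.regular h⟩

theorem unknotted_neg {n : ℕ} {R : Eu (n + 1) → ℝ} (h : Unknotted n fun z => -R z) :
    Unknotted n R := by
  obtain ⟨h1, h2⟩ := h
  have e1 : {x : S n | -R (x : Eu (n + 1)) ≤ 0} = {x : S n | 0 ≤ R x} := by ext x; simp
  have e2 : {x : S n | 0 ≤ -R (x : Eu (n + 1))} = {x : S n | R x ≤ 0} := by ext x; simp
  rw [e1] at h1
  rw [e2] at h2
  exact ⟨h2, h1⟩

/-- the second derivative of `G` along a great circle -/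
theorem second {n m : ℕ} {R : Eu (n + 1) → ℝ} (hR : ContDiff ℝ ∞ R) {f : Fin m → Eu (n + 1) → ℝ}
    (hf : ∀ i, ContDiff ℝ ∞ (f i)) (w : Fin m → ℝ) (s : ℝ) {x u : Eu (n + 1)} (hu : ‖u‖ = 1) :
    deriv (deriv fun τ => ∑ i, w i * f i (greatCircle x u τ) + s * R (greatCircle x u τ)) 0 =
      ∑ i, w i * H22.EQ.hs (f i) x u u + s * H22.EQ.hs R x u u := by
  have h1 : ∀ τ : ℝ, HasDerivAt (fun τ => ∑ i, w i * f i (H22.EQ.gc x u τ) +
      s * R (H22.EQ.gc x u τ)) (∑ i, w i * fderiv ℝ (f i) (H22.EQ.gc x u τ) (H22.EQ.gc u (-x) τ) +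
        s * fderiv ℝ R (H22.EQ.gc x u τ) (H22.EQ.gc u (-x) τ)) τ := fun τ =>
    (HasDerivAt.fun_sum fun i _ => (H22.EQ.comp_gc_deriv (hf i) x u τ).const_mul (w i)).add
      ((H22.EQ.comp_gc_deriv hR x u τ).const_mul s)
  have h2 : HasDerivAt (fun τ => ∑ i, w i * fderiv ℝ (f i) (H22.EQ.gc x u τ)
      (H22.EQ.gc u (-x) τ) + s * fderiv ℝ R (H22.EQ.gc x u τ) (H22.EQ.gc u (-x) τ))
      (∑ i, w i * H22.EQ.hs (f i) x u u + s * H22.EQ.hs R x u u) 0 :=
    (HasDerivAt.fun_sum fun i _ => (H22.EQ.comp_gc_deriv2 (hf i) hu).const_mul (w i)).add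
      ((H22.EQ.comp_gc_deriv2 hR hu).const_mul s)
  have h3 : deriv (fun τ => ∑ i, w i * f i (H22.EQ.gc x u τ) + s * R (H22.EQ.gc x u τ)) =
      fun τ => ∑ i, w i * fderiv ℝ (f i) (H22.EQ.gc x u τ) (H22.EQ.gc u (-x) τ) +
        s * fderiv ℝ R (H22.EQ.gc x u τ) (H22.EQ.gc u (-x) τ) := funext fun τ => (h1 τ).deriv
  show deriv (deriv fun τ => ∑ i, w i * f i (H22.EQ.gc x u τ) + s * R (H22.EQ.gc x u τ)) 0 = _
  rw [h3, h2.deriv]

theorem one_side (n : ℕ) (R : Eu (n + 1) → ℝ) (hR : TwoSided n R)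
    (hball : ¬IsSmoothBall n {x : S n | R x ≤ 0}) {T : Type*} [TopologicalSpace T]
    [CompactSpace T] [Nonempty T] (φ : T → Eu (n + 1) → ℝ) (hφ : SmoothFamily n φ) :
    ∃ x s, MaxCritPlane n R φ x s := by
  have : Fact (Module.finrank ℝ (Eu (n + 1)) = n + 1) := ⟨finrank_euclideanSpace_fin⟩
  have hball' : ¬Q100.SS.IsBallS n {x : S n | R x ≤ 0} := hball
  obtain ⟨x, s, h1, h2, h3, h4, m, t, w, h5, h6, h7, h8, h9, a, b, ha, hb, hab, hxa, hxb, hsa,
    hsb, h10, h11⟩ := H22.EQ.maxf hR.smooth hR.regular hR.connected_neg hball' hR.simply hφ.smooth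
      hφ.cont hφ.cont_fderiv hφ.cont_fderiv_fderiv
  refine ⟨x, s, h1, h2, h3, h4, m, t, w, h5, h6, h7, h8, h9, a, b, ha, hb, hab, hxa, hxb, hsa,
    hsb, h10, fun θ => ?_⟩
  have hu : ‖Real.cos θ • a + Real.sin θ • b‖ = 1 := H22.EQ.gc_norm ha hb hab θ
  rw [second hR.smooth (fun i => hφ.smooth (t i)) w s hu]
  simp only [H22.EQ.hs_eq_hq]
  exact h11 θ

theorem result (n : ℕ) (R : Eu (n + 1) → ℝ) (hR : TwoSided n R) (hk : ¬Unknotted n R)
    {T : Type*} [TopologicalSpace T] [CompactSpace T] [Nonempty T] (φ : T → Eu (n + 1) → ℝ)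
    (hφ : SmoothFamily n φ) :
    (∃ x s, MaxCritPlane n R φ x s) ∧ (∃ x s, MaxCritPlane n (fun z => -R z) φ x s) :=
  ⟨one_side n R hR (not_ball hR hk) φ hφ,
    one_side n _ (neg_twoSided hR) (not_ball (neg_twoSided hR) fun h => hk (unknotted_neg h)) φ hφ⟩

end Pool.Agent.Results.MP_6c077c_gt.MaximaOfFamilies
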