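import Pool.Agent.H27.Sch.Planes

/-!
# Outward normal rays of a knotted hypersurface meet every plane at a right angle

Let `M = {ρ = 0}` be a smooth closed simply connected hypersurface of `ℝⁿ` (for instance a smooth
3-sphere in `ℝ⁴ ⊂ S⁴`), the boundary of the compact connected domain `W = {ρ ≤ 0}`, and suppose that
`M` is knotted: `W` is not a smooth closed ball. Then for every affine plane `P` of `ℝⁿ` (more
generally for every affine subspace `P = p + V` with `dim V ≤ 2`) there is a closed outward normal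
ray of `M` which meets `P` at a right angle: it starts at some `x ∈ M` with `∇ρ(x)` orthogonal to
`V`, and `x + s ∇ρ(x) ∈ P` for some `s ≥ 0`. Moreover at `x` there is a plane of tangent vectors of
`M` on which the second variation of the squared distance from `P` is nonpositive: with `Q` the
orthogonal projection along `V`, `|Q u|² + s D²ρ(x)(u, u) ≤ 0` for all `u` in this plane.

For `dim V ≤ 1` this forces `s > 0`. A consequence: if `W` lies in the open `L`-neighbourhood of an
affine plane `P` and the point of every inner normal ray at distance `L` from its origin belongs to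
`W` (for instance if `W` has the interior ball property for the radius `L / 2`), then `W` is a ball:
thick 3-spheres in thin tubes about planes are unknotted. The points `P` (`dim V = 0`) and the
lines (`dim V = 1`, the library's `lines_two`) were treated before; planes (`dim V = 2`) are new.
-/

set_option autoImplicit false

namespace Pool.Agent.Results.MP_6c077c_gt.NormalRaysToPlanes

open Set Metric Module
open scoped Manifold ContDiff Topology RealInnerProductSpace Gradient

/-- Euclidean space of dimension `n`. -/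
abbrev Eu (n : ℕ) := EuclideanSpace ℝ (Fin n)

/-- `W` is a smoothly embedded closed `n`-ball of `ℝⁿ`. -/
def IsSmoothBall {n : ℕ} (W : Set (Eu n)) : Prop :=
  ∃ Φ : Eu n → Eu n, Topology.IsOpenEmbedding Φ ∧ IsLocalDiffeomorph (𝓡 n) (𝓡 n) ∞ Φ ∧
    Φ '' closedBall 0 1 = W

/-- `W = {ρ ≤ 0}` is a compact connected domain of `ℝⁿ` with smooth boundary `M = {ρ = 0}`, and `M`
is simply connected. -/
structure Domain {n : ℕ} (ρ : Eu n → ℝ) : Prop where
  smooth : ContDiff ℝ ∞ ρ
  regular : ∀ x, ρ x = 0 → ∇ ρ x ≠ 0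
  compact : IsCompact {x | ρ x ≤ 0}
  connected : IsConnected {x | ρ x ≤ 0}
  simply : SimplyConnectedSpace {x | ρ x = 0}

/-- The orthogonal projection along `V`. -/
noncomputable def Q {n : ℕ} (V : Submodule ℝ (Eu n)) : Eu n →L[ℝ] Eu n := Vᗮ.starProjection

theorem result (n : ℕ) (ρ : Eu n → ℝ) (hρ : Domain ρ) (hk : ¬IsSmoothBall {x | ρ x ≤ 0})
    (V : Submodule ℝ (Eu n)) (hV : finrank ℝ V ≤ 2) (p : Eu n) :
    ∃ (x : Eu n) (s : ℝ), ρ x = 0 ∧ 0 ≤ s ∧ (∀ v ∈ V, ⟪∇ ρ x, v⟫ = 0) ∧ x + s • ∇ ρ x - p ∈ V ∧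
      ∃ v w : Eu n, ‖v‖ = 1 ∧ ‖w‖ = 1 ∧ ⟪v, w⟫ = 0 ∧ ⟪∇ ρ x, v⟫ = 0 ∧ ⟪∇ ρ x, w⟫ = 0 ∧
        ∀ a c : ℝ, ‖Q V (a • v + c • w)‖ ^ 2 +
          s * ⟪fderiv ℝ (∇ ρ) x (a • v + c • w), a • v + c • w⟫ ≤ 0 := by
  haveI := hρ.simply
  have hL : Q196.XF.Lifts {x | ρ x ≤ 0} :=
    Q196.XF.lifts_of_boundary hρ.smooth hρ.compact fun x hx => by
      rw [Q100.SS.gr_id (hρ.smooth.differentiable (by simp) x)]
      exact hρ.regular x hx
  obtain ⟨x, hx, s, hs, h1, h2, h3⟩ :=
    H27.Sch.planes V hρ.smooth hρ.regular hρ.compact hρ.connected hL hk hV p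
  exact ⟨x, s, hx, hs, (Submodule.mem_orthogonal' V _).1 h1, h2, h3⟩

end Pool.Agent.Results.MP_6c077c_gt.NormalRaysToPlanes
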